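import Pool.Agent.Lib.P65K.Defs
import Pool.Agent.Lib.P65.XorZ

/-!
Terms on three blocks, over a field `K` (compare `eval_blocks`, `term_of_cubes`, `xorAnd_equiv`
in `Pool.Agent.Lib.P65.XorZ`), and the value of `blockF` at the codes.
-/

namespace P65

/-- A term on three blocks is a product of three functions of one block each. -/
theorem eval_blocksK {K B : Type} [Field K] [Fintype B] (c : Term (B ⊕ B ⊕ B)) :
    ∃ p q r : (B → Bool) → K, ∀ w : B ⊕ B ⊕ B → Bool,
      (if c.eval w = true then (1 : K) else 0) = p (xb w) * q (yb w) * r (zb w) := by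
  refine ⟨fun u => if Term.eval (fun i => c (Sum.inl i)) u = true then 1 else 0,
    fun u => if Term.eval (fun i => c (Sum.inr (Sum.inl i))) u = true then 1 else 0,
    fun u => if Term.eval (fun i => c (Sum.inr (Sum.inr i))) u = true then 1 else 0,
    fun w => ?_⟩
  have key : c.eval w = true ↔ Term.eval (fun i => c (Sum.inl i)) (xb w) = true ∧
      Term.eval (fun i => c (Sum.inr (Sum.inl i))) (yb w) = true ∧
      Term.eval (fun i => c (Sum.inr (Sum.inr i))) (zb w) = true := by
    rw [eval_eq_true, eval_eq_true, eval_eq_true, eval_eq_true]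
    constructor
    · intro h
      exact ⟨fun i => h (Sum.inl i), fun i => h (Sum.inr (Sum.inl i)),
        fun i => h (Sum.inr (Sum.inr i))⟩
    · rintro ⟨h1, h2, h3⟩ (i | i | i)
      · exact h1 i
      · exact h2 i
      · exact h3 i
  simp only [key]
  by_cases h1 : Term.eval (fun i => c (Sum.inl i)) (xb w) = true <;>
  by_cases h2 : Term.eval (fun i => c (Sum.inr (Sum.inl i))) (yb w) = true <;>
  by_cases h3 : Term.eval (fun i => c (Sum.inr (Sum.inr i))) (zb w) = true <;>
  simp [h1, h2, h3]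

open Classical in
/-- Three subcubes (one for each block) are given by one term. -/
theorem term_of_cubesB {B : Type} [Fintype B] (S1 S2 S3 : Set (B → Bool)) (h1 : IsCube S1)
    (h2 : IsCube S2) (h3 : IsCube S3) :
    ∃ c : Term (B ⊕ B ⊕ B), ∀ w : B ⊕ B ⊕ B → Bool,
      (c.eval w = true ↔ (xb w ∈ S1 ∧ yb w ∈ S2 ∧ zb w ∈ S3)) := by
  obtain ⟨c1, h1⟩ := h1
  obtain ⟨c2, h2⟩ := h2
  obtain ⟨c3, h3⟩ := h3
  refine ⟨Sum.elim c1 (Sum.elim c2 c3), fun w => ?_⟩
  rw [eval_eq_true, h1, h2, h3]
  constructor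
  · intro h
    exact ⟨fun i => h (Sum.inl i), fun i => h (Sum.inr (Sum.inl i)),
      fun i => h (Sum.inr (Sum.inr i))⟩
  · rintro ⟨k1, k2, k3⟩ (i | i | i)
    · exact k1 i
    · exact k2 i
    · exact k3 i

/-- renaming in a weighted sum -/
theorem wsum_comp {K ι ι' : Type} [Field K] [Fintype ι] [Fintype ι'] (e : ι ≃ ι')
    (ts : List (K × Term ι')) (x : ι' → Bool) :
    wsum (ts.map (fun p => (p.1, (fun i => p.2 (e i) : Term ι)))) (fun i => x (e i)) =
      wsum ts x := by
  unfold wsum
  rw [List.map_map]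
  congr 1
  apply List.map_congr_left
  intro p _
  have h : Term.eval (fun i => p.2 (e i)) (fun i => x (e i)) = Term.eval p.2 x :=
    XorZAux.eval_comp e p.2 x
  simp only [Function.comp_apply, h]

/-- Renaming the variables does not change the size. -/
theorem suppAnd_equiv (K : Type) [Field K] {ι ι' : Type} [Fintype ι] [Fintype ι'] (e : ι ≃ ι')
    (f : (ι → Bool) → Bool) (s : ℕ) :
    SuppAnd K (fun x : ι' → Bool => f (fun i => x (e i))) s ↔ SuppAnd K f s := by
  constructor
  · rintro ⟨ts, h1, h2⟩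
    refine ⟨ts.map (fun p => (p.1, (fun i => p.2 (e i) : Term ι))),
      by rw [List.length_map]; exact h1, fun x => ?_⟩
    have h3 := h2 (fun j => x (e.symm j))
    have h4 : (fun i => (fun j => x (e.symm j)) (e i)) = x := by
      funext i
      simp
    have h5 := wsum_comp e ts (fun j => x (e.symm j))
    rw [h4] at h5
    have h6 : (fun i => x (e.symm (e i))) = x := h4
    have h3' : f (fun i => x (e.symm (e i))) = true ↔ wsum ts (fun j => x (e.symm j)) ≠ 0 := h3
    rw [h6] at h3'
    rw [h5]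
    exact h3'
  · rintro ⟨ts, h1, h2⟩
    refine ⟨ts.map (fun p => (p.1, (fun j => p.2 (e.symm j) : Term ι'))),
      by rw [List.length_map]; exact h1, fun x => ?_⟩
    have h3 := h2 (fun i => x (e i))
    have h5 := wsum_comp e.symm ts (fun i => x (e i))
    have h4 : (fun j => (fun i => x (e i)) (e.symm j)) = x := by
      funext j
      simp
    rw [h4] at h5
    rw [h5]
    exact h3

/-- The value of `blockF` at codes. -/
theorem blockF_code {V C St B : Type} [Fintype V] [Fintype C] [Fintype St]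
    [DecidableEq V] [DecidableEq C] (cof : St → C) (o : C → V) (τ : St → V) (act : C → Bool)
    (κ1 κ2 : V ⊕ St → B → Bool) (h1 : Function.Injective κ1) (h2 : Function.Injective κ2)
    (ζ : C → Set (B → Bool)) (hd : ∀ c c' z, z ∈ ζ c → z ∈ ζ c' → c = c')
    (a b : V ⊕ St) (c : C) (z : B → Bool) (hz : z ∈ ζ c) :
    blockF cof o τ act κ1 κ2 ζ (κ1 a) (κ2 b) z = T cof o τ act a b c := by
  unfold blockF
  rw [Finset.sum_eq_single a, Finset.sum_eq_single b, Finset.sum_eq_single c]
  · rw [if_pos ⟨rfl, rfl, hz⟩]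
  · intro c' _ hc'
    rw [if_neg]
    rintro ⟨_, _, h⟩
    exact hc' (hd _ _ _ h hz)
  · intro h
    exact absurd (Finset.mem_univ _) h
  · intro b' _ hb'
    refine Finset.sum_eq_zero fun c' _ => ?_
    rw [if_neg]
    rintro ⟨_, h, _⟩
    exact hb' (h2 h)
  · intro h
    exact absurd (Finset.mem_univ _) h
  · intro a' _ ha'
    refine Finset.sum_eq_zero fun b' _ => Finset.sum_eq_zero fun c' _ => ?_
    rw [if_neg]
    rintro ⟨h, _, _⟩
    exact ha' (h1 h)
  · intro h
    exact absurd (Finset.mem_univ _) h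

/-- `blockF` is zero off the codes. -/
theorem blockF_zero {V C St B : Type} [Fintype V] [Fintype C] [Fintype St]
    [DecidableEq V] [DecidableEq C] (cof : St → C) (o : C → V) (τ : St → V) (act : C → Bool)
    (κ1 κ2 : V ⊕ St → B → Bool) (ζ : C → Set (B → Bool)) (x y z : B → Bool)
    (h : ¬ ∃ a b c, κ1 a = x ∧ κ2 b = y ∧ z ∈ ζ c) :
    blockF cof o τ act κ1 κ2 ζ x y z = 0 := by
  unfold blockF
  refine Finset.sum_eq_zero fun a _ => Finset.sum_eq_zero fun b _ =>
    Finset.sum_eq_zero fun c _ => ?_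
  rw [if_neg]
  intro h'
  exact h ⟨a, b, c, h'⟩

/-- The signed tensor has the zero pattern of `T`. -/
theorem TK_ne_zero (K : Type) [Field K] {V C St : Type} [DecidableEq V] [DecidableEq C]
    (cof : St → C) (o : C → V) (τ : St → V) (act : C → Bool) (a b : V ⊕ St) (c : C) :
    TK K cof o τ act a b c ≠ 0 ↔ T cof o τ act a b c = 1 := by
  rcases a with v | p <;> rcases b with v' | q
  · show (if v = o c ∧ v' = o c ∧ act c = true then (1 : K) else 0) ≠ 0 ↔
      (if v = o c ∧ v' = o c ∧ act c = true then (1 : ZMod 2) else 0) = 1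
    by_cases h : v = o c ∧ v' = o c ∧ act c = true
    · rw [if_pos h, if_pos h]; simp
    · rw [if_neg h, if_neg h]; simp
  · show (if cof q = c ∧ (v = o c ∨ v = τ q) then (-1 : K) else 0) ≠ 0 ↔
      (if cof q = c ∧ (v = o c ∨ v = τ q) then (1 : ZMod 2) else 0) = 1
    by_cases h : cof q = c ∧ (v = o c ∨ v = τ q)
    · rw [if_pos h, if_pos h]; simp
    · rw [if_neg h, if_neg h]; simp
  · show (if cof p = c ∧ (v' = o c ∨ v' = τ p) then (1 : K) else 0) ≠ 0 ↔
      (if cof p = c ∧ (v' = o c ∨ v' = τ p) then (1 : ZMod 2) else 0) = 1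
    by_cases h : cof p = c ∧ (v' = o c ∨ v' = τ p)
    · rw [if_pos h, if_pos h]; simp
    · rw [if_neg h, if_neg h]; simp
  · show (0 : K) ≠ 0 ↔ (0 : ZMod 2) = 1
    simp

end P65
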