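import Pool.Agent.Lib.P65K.Defs
import Pool.Agent.Lib.P65.ProjTuring

/-!
A projection as a circuit with one oracle gate; the circuit does not depend on the oracle.
-/

namespace P65

/-- The wires of the oracle gate. -/
def orcW (W : List PS) : List ℕ := (List.range W.length).map (fun k => 2 * k + 1)

theorem csize_projC (W : List PS) :
    csize (buildG 0 W ++ [Gate.orc (orcW W)]) = 3 * W.length + 1 := by
  have := buildG_csize W 0
  unfold csize at this ⊢
  rw [List.map_append, List.sum_append, this]
  simp [Gate.size, orcW]; ring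

theorem outC_projC (B : Set (List Bool)) (x : List Bool) (W : List PS) :
    outC B x (buildG 0 W ++ [Gate.orc (orcW W)]) = true ↔ W.map (PS.eval x) ∈ B := by
  unfold outC runC orcW
  rw [List.foldl_append, foldl_buildG B x W 0 [] (by simp)]
  simp only [List.foldl_cons, List.foldl_nil, List.nil_append, Gate.eval]
  rw [map_oracle]
  simp

/-- polynomial bookkeeping -/
theorem three_mul_bound (m d l : ℕ) (hm : 1 ≤ m) (hl : l ≤ m ^ d + d) :
    3 * l + 1 ≤ m ^ (4 * d + 4) + (4 * d + 4) := by
  have h2 : 3 * l + 1 ≤ 3 * (m ^ d + d) + 1 := by omega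
  refine h2.trans ?_
  rcases Nat.lt_or_ge m 2 with hm2 | hm2
  · have : m = 1 := by omega
    subst this
    simp; omega
  · have h3 : m ^ (4 * d + 4) = m ^ (3 * d) * m ^ d * m ^ 4 := by
      rw [← pow_add, ← pow_add]; congr 1; ring
    have h4 : 1 ≤ m ^ (3 * d) := Nat.one_le_pow _ _ (by omega)
    have h5 : 2 ^ 4 ≤ m ^ 4 := Nat.pow_le_pow_left hm2 4
    have h6 : 3 * m ^ d ≤ m ^ (4 * d + 4) := by
      rw [h3]
      calc 3 * m ^ d ≤ 1 * m ^ d * 2 ^ 4 := by omega
        _ ≤ m ^ (3 * d) * m ^ d * m ^ 4 := by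
          apply Nat.mul_le_mul
          · exact Nat.mul_le_mul_right _ h4
          · exact h5
    omega

end P65
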