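import Pool.Agent.Lib.P65.CircDefs

/-!
# MP_65a708_lc: the general form (any field `K`)

`SuppAnd K f s`: there are at most `s` ANDs of literals and coefficients in `K` such that
`f x = true` iff the sum of the coefficients of the ANDs that are true at `x` is not zero.
For `K = ZMod 2` this is an XOR of at most `s` ANDs, for `K = ZMod p` a MOD_p gate of ANDs.
-/

namespace P65

/-- The sum of the coefficients of the terms that are true at `x`. -/
def wsum {K ι : Type} [Field K] [Fintype ι] (ts : List (K × Term ι)) (x : ι → Bool) : K :=
  (ts.map (fun p => if p.2.eval x = true then p.1 else 0)).sum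

/-- `f` is computed by a circuit with at most `s` ANDs of literals and a top gate that tests
whether a linear combination with coefficients in `K` is not zero. -/
def SuppAnd (K : Type) [Field K] {ι : Type} [Fintype ι] (f : (ι → Bool) → Bool) (s : ℕ) : Prop :=
  ∃ ts : List (K × Term ι), ts.length ≤ s ∧ ∀ x, (f x = true ↔ wsum ts x ≠ 0)

/-- The minimum circuit size problem for these circuits: the truth table of a function `f`
of `n` variables followed by a number `s < 2 ^ (n + 1)` written with `n + 1` bits, such that
`SuppAnd K f s`. -/
def ModAndMCSP (K : Type) [Field K] : Set (List Bool) :=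
  {w | ∃ (n s : ℕ) (f : (Fin n → Bool) → Bool), s < 2 ^ (n + 1) ∧
    w = ttab f ++ bin (n + 1) s ∧ SuppAnd K f s}

/-- The signed tensor over `K`: the entries of the private columns are `-1`, the other nonzero
entries are `1`. -/
def TK (K : Type) [Field K] {V C St : Type} [DecidableEq V] [DecidableEq C] (cof : St → C)
    (o : C → V) (τ : St → V) (act : C → Bool) : (V ⊕ St) → (V ⊕ St) → C → K
  | Sum.inl v, Sum.inl v', c => if v = o c ∧ v' = o c ∧ act c = true then 1 else 0
  | Sum.inr i, Sum.inl v, c => if cof i = c ∧ (v = o c ∨ v = τ i) then 1 else 0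
  | Sum.inl v, Sum.inr i, c => if cof i = c ∧ (v = o c ∨ v = τ i) then -1 else 0
  | Sum.inr _, Sum.inr _, _ => 0

end P65
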