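import Pool.Agent.Lib.P65K.Inst
import Pool.Agent.Lib.P65.Proj
import Pool.Agent.Lib.P65.Gray
import Pool.Agent.Lib.P65.Decode
import Pool.Agent.Lib.P65.PolyB

/-!
`mem_ModAndMCSP`: copy the proof of `mem_XorAndMCSP` (`Pool.Agent.Lib.P65.Decode`).
`hs_projK`: copy the proof of `Pool.Agent.Lib.P65.HSProj` with `instK`, `suppAnd_equiv`. The list
`W` does not depend on `K`.
-/

namespace P65

namespace HSProjKAux

theorem exists_testBit {n : ℕ} (x : Fin n → Bool) :
    ∃ k : Fin (2 ^ n), ∀ i : Fin n, k.1.testBit i.1 = x i :=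
  ⟨⟨Nat.ofBits x, Nat.ofBits_lt_two_pow x⟩, fun i => Nat.testBit_ofBits_lt x i.1 i.2⟩

theorem ttab_inj {n : ℕ} {f g : (Fin n → Bool) → Bool} (h : ttab f = ttab g) : f = g := by
  have h1 := List.ofFn_injective h
  funext x
  obtain ⟨k, hk⟩ := exists_testBit x
  have h2 := congrFun h1 k
  have h3 : (fun i : Fin n => k.1.testBit i.1) = x := funext hk
  simpa [h3] using h2

theorem bin_inj {l s t : ℕ} (hs : s < 2 ^ l) (ht : t < 2 ^ l) (h : bin l s = bin l t) :
    s = t := by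
  have h1 := List.ofFn_injective h
  apply Nat.eq_of_testBit_eq
  intro i
  by_cases hi : i < l
  · exact congrFun h1 ⟨i, hi⟩
  · have e : 2 ^ l ≤ 2 ^ i := Nat.pow_le_pow_right (by norm_num) (not_lt.1 hi)
    rw [Nat.testBit_lt_two_pow (lt_of_lt_of_le hs e), Nat.testBit_lt_two_pow (lt_of_lt_of_le ht e)]

end HSProjKAux

theorem mem_ModAndMCSP (K : Type) [Field K] {n s : ℕ} (f : (Fin n → Bool) → Bool)
    (hs : s < 2 ^ (n + 1)) :
    ttab f ++ bin (n + 1) s ∈ ModAndMCSP K ↔ SuppAnd K f s := by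
  constructor
  · rintro ⟨n', s', f', hs', he, hx⟩
    have hl := congrArg List.length he
    simp only [List.length_append, ttab, bin, List.length_ofFn] at hl
    have hn : n = n' := by
      rcases lt_trichotomy n n' with h | h | h
      · have := Nat.pow_lt_pow_right (a := 2) (by norm_num) h
        omega
      · exact h
      · have := Nat.pow_lt_pow_right (a := 2) (by norm_num) h
        omega
    subst hn
    obtain ⟨h1, h2⟩ := List.append_inj he (by simp [ttab])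
    have h3 := HSProjKAux.ttab_inj h1
    have h4 := HSProjKAux.bin_inj hs hs' h2
    rw [h3, h4]
    exact hx
  · intro h
    exact ⟨n, s, f, hs, rfl, h⟩

namespace HSProjKAux

theorem card_SS (n m : ℕ) (A : Fin (n+1) → Fin m → Bool) :
    Fintype.card (SS n m A) ≤ (n+1) * (2*m+2) + m * (2*n) + (n+1) * m := by
  have h1 : Fintype.card {p : Fin (n+1) × Fin m // A p.1 p.2 = true} ≤ (n+1) * m := by
    refine (Fintype.card_subtype_le _).trans ?_
    simp
  have h2 : Fintype.card (SS n m A) = (n+1) * (2*m+2) + (m * (2*n) +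
      Fintype.card {p : Fin (n+1) × Fin m // A p.1 p.2 = true}) := by
    rw [Fintype.card_sum, Fintype.card_sum, Fintype.card_prod, Fintype.card_prod]
    simp only [Fintype.card_fin]
  rw [h2]
  omega

theorem arith1 {n m a b M : ℕ} (ha : 2*n+1 ≤ a) (hb : 2*m+3 ≤ b) (hM : 2 ^ M = 512 * (a * b) ^ 3) :
    13 * ((n+1) * (m+1)) < 2 ^ (M + 1) := by
  have h1 : (n+1) * (m+1) ≤ a * b := Nat.mul_le_mul (by omega) (by omega)
  have h0 : 1 ≤ (n+1) * (m+1) := Nat.mul_pos (by omega) (by omega)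
  have h2 : a * b ≤ (a * b) ^ 3 := Nat.le_self_pow (by norm_num) _
  rw [pow_succ, hM]
  omega

theorem arith2 {n m a b M : ℕ} (ha : a ≤ 2 * (2*n+1)) (hb : b ≤ 2 * (2*m+3))
    (hM : 2 ^ M = 512 * (a * b) ^ 3) :
    2 ^ M + (M + 1) ≤ 10 ^ 8 * ((n+1) * (m+1)) ^ 3 := by
  have h1 : a * b ≤ 24 * ((n+1) * (m+1)) := by
    calc a * b ≤ (4 * (n+1)) * (6 * (m+1)) := Nat.mul_le_mul (by omega) (by omega)
      _ = 24 * ((n+1) * (m+1)) := by ring
  have h2 : (a * b) ^ 3 ≤ 13824 * ((n+1) * (m+1)) ^ 3 := by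
    calc (a * b) ^ 3 ≤ (24 * ((n+1) * (m+1))) ^ 3 := Nat.pow_le_pow_left h1 3
      _ = 13824 * ((n+1) * (m+1)) ^ 3 := by ring
  have h3 : M + 1 ≤ 2 ^ M := Nat.lt_two_pow_self
  omega

end HSProjKAux

open HSProjKAux

theorem hs_projK (n m k : ℕ) (hk : k ≤ n + 1) (A : Fin (n+1) → Fin m → Bool)
    (hne : ∀ j, ∃ u, A u j = true) (G : Fin m → PS) :
    ∃ W : List PS, W.length ≤ 10 ^ 8 * ((n+1) * (m+1)) ^ 3 ∧
      ∀ (K : Type) [Field K] (x : List Bool), (W.map (PS.eval x) ∈ ModAndMCSP K ↔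
        ∃ U : Finset (Fin (n+1)), U.card ≤ k ∧
          ∀ j, (G j).eval x = true → ∃ u ∈ U, A u j = true) := by
  obtain ⟨ρ, hρ1, hρ2⟩ := two_pow_between (2*n+1) (by omega)
  obtain ⟨κ, hκ1, hκ2⟩ := two_pow_between (2*m+3) (by omega)
  obtain ⟨gr, hgr⟩ := gray_exists ρ
  obtain ⟨gc, hgc⟩ := gray_exists κ
  obtain ⟨M, hMc⟩ : ∃ M, M = Fintype.card (Blk ρ κ ⊕ Blk ρ κ ⊕ Blk ρ κ) := ⟨_, rfl⟩
  have hMv : M = 3 * (ρ + κ + 3) := by
    rw [hMc]
    simp only [Fintype.card_sum, Fintype.card_fin]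
    ring
  have hM2 : 2 ^ M = 512 * (2 ^ ρ * 2 ^ κ) ^ 3 := by
    rw [hMv, pow_mul', pow_add, pow_add]
    ring
  let e : (Blk ρ κ ⊕ Blk ρ κ ⊕ Blk ρ κ) ≃ Fin M := Fintype.equivFinOfCardEq hMc.symm
  obtain ⟨s, hs⟩ : ∃ s, s = 2 * Fintype.card (SS n m A) + ((n+1)*(m+1) + m*n) + k := ⟨_, rfl⟩
  have hs1 : s < 2 ^ (M + 1) := by
    refine lt_of_le_of_lt ?_ (arith1 hρ1 hκ1 hM2)
    have h1 := card_SS n m A
    have h2 : (n+1) * (2*m+2) = 2 * ((n+1) * (m+1)) := by ring
    have h3 : m * n ≤ (n+1) * (m+1) := by nlinarith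
    have h4 : (n+1) * m ≤ (n+1) * (m+1) := Nat.mul_le_mul (le_refl _) (by omega)
    have h5 : n + 1 ≤ (n+1) * (m+1) := Nat.le_mul_of_pos_right _ (by omega)
    have h6 : m * (2*n) = 2 * (m * n) := by ring
    rw [hs]
    omega
  let g : (Fin m → Bool) → (Fin M → Bool) → Bool := fun γ w =>
    FF n m A gr gc γ (fun i => w (e i))
  have hsym : ∀ k : Fin (2 ^ M), ∃ p : PS, ∀ x : List Bool,
      p.eval x = g (fun j => (G j).eval x) (fun i => k.1.testBit i.1) := by
    intro k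
    rcases proj A gr gc hgr hgc hρ1 hκ1
      (fun i => (fun b : Fin M => k.1.testBit b.1) (e i)) with ⟨j, hj⟩ | ⟨b, hb⟩
    · exact ⟨G j, fun x => (hj (fun j => (G j).eval x)).symm⟩
    · exact ⟨PS.cst b, fun x => (hb (fun j => (G j).eval x)).symm⟩
  choose sym hsym using hsym
  refine ⟨List.ofFn sym ++ (bin (M + 1) s).map PS.cst, ?_, fun K _ x => ?_⟩
  · rw [List.length_append, List.length_ofFn, List.length_map, bin, List.length_ofFn]
    exact arith2 hρ2 hκ2 hM2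
  · have hmap : (List.ofFn sym ++ (bin (M + 1) s).map PS.cst).map (PS.eval x)
        = ttab (g (fun j => (G j).eval x)) ++ bin (M + 1) s := by
      rw [List.map_append, List.map_ofFn, List.map_map]
      congr 1
      · rw [ttab]
        congr 1
        funext k
        exact hsym k x
      · have h1 : (PS.eval x ∘ PS.cst) = id := by
          funext b
          rfl
        rw [h1, List.map_id]
    rw [hmap]
    refine (mem_ModAndMCSP K _ hs1).trans ?_
    refine (suppAnd_equiv K e (FF n m A gr gc (fun j => (G j).eval x)) s).trans ?_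
    rw [hs]
    exact instK K A gr gc hgr hgc hρ1 hκ1 hne _ k

end P65
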