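import Pool.Agent.Lib.P65K.UBId
import Pool.Agent.Lib.P65K.Blocks
import Pool.Agent.Lib.P65.Cube

/-!
Upper bound for the number of ANDs over `K` (compare `Pool.Agent.Lib.P65.UBBits`). Let
`g x y z := ∑ a, ∑ b, ∑ c, if κ1 a = x ∧ κ2 b = y ∧ z ∈ ζ c then TK a b c else 0`. By `TK_id` and
the injectivity of `κ1, κ2` and the disjointness of the `ζ c`, `g` is the sum of the
coefficients `±1` times indicators of `κ1 '' Pa × κ2 '' Pb × (⋃ c ∈ Pc, ζ c)`, which are terms
(`term_of_cubesB`); so `g (xb w) (yb w) (zb w) = wsum ts w` for a list `ts` of length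
`2 |St| + |S|`. And `g ≠ 0` iff `blockF = 1` (`blockF_code`, `blockF_zero`, `TK_ne_zero`).
-/

namespace P65

namespace UBBitsKAux

lemma sum_unique (K : Type) [Field K] {α : Type} [Fintype α] (p : α → Prop) [DecidablePred p]
    [Decidable (∃ a, p a)] (h : ∀ a a', p a → p a' → a = a') :
    ∑ a, (if p a then (1 : K) else 0) = if ∃ a, p a then 1 else 0 := by
  by_cases he : ∃ a, p a
  · rw [if_pos he]
    obtain ⟨a, ha⟩ := he
    rw [Finset.sum_eq_single a]
    · simp [ha]
    · intro b _ hb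
      rw [if_neg]
      intro hpb
      exact hb (h _ _ hpb ha)
    · intro h; exact absurd (Finset.mem_univ _) h
  · rw [if_neg he]
    apply Finset.sum_eq_zero
    intro a _
    rw [if_neg]
    intro hpa
    exact he ⟨a, hpa⟩

/-- the functional -/
noncomputable def L {K : Type} [Field K] {α β γ : Type} [Fintype α] [Fintype β] [Fintype γ]
    (W : α → β → γ → K) : (α → β → γ → K) →+ K :=
  AddMonoidHom.mk' (fun g => ∑ a, ∑ b, ∑ c, W a b c * g a b c) (by
    intro g h
    simp [mul_add, Finset.sum_add_distrib])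

lemma LL_apply {K : Type} [Field K] {α β γ : Type} [Fintype α] [Fintype β] [Fintype γ]
    (W g : α → β → γ → K) : L W g = ∑ a, ∑ b, ∑ c, W a b c * g a b c := rfl

open Classical in
lemma L_ind {K : Type} [Field K] {α β γ B : Type} [Fintype α] [Fintype β] [Fintype γ]
    (κ1 : α → B → Bool) (κ2 : β → B → Bool) (h1 : Function.Injective κ1)
    (h2 : Function.Injective κ2)
    (ζ : γ → Set (B → Bool)) (hd : ∀ c c' z, z ∈ ζ c → z ∈ ζ c' → c = c')
    (P : α → Prop) (Q : β → Prop) (R : γ → Prop) (v : K) (x y z : B → Bool) :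
    L (fun a b c => if κ1 a = x ∧ κ2 b = y ∧ z ∈ ζ c then (1 : K) else 0)
      (fun a b c => if P a ∧ Q b ∧ R c then v else 0) =
    if (∃ a, P a ∧ κ1 a = x) ∧ (∃ b, Q b ∧ κ2 b = y) ∧ (∃ c, R c ∧ z ∈ ζ c) then v else 0 := by
  rw [LL_apply]
  have e : ∀ a b c, (if κ1 a = x ∧ κ2 b = y ∧ z ∈ ζ c then (1 : K) else 0) *
      (if P a ∧ Q b ∧ R c then v else 0) =
      (if P a ∧ κ1 a = x then (1 : K) else 0) * ((if Q b ∧ κ2 b = y then 1 else 0) *
      ((if R c ∧ z ∈ ζ c then 1 else 0) * v)) := by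
    intro a b c
    by_cases q1 : P a <;> by_cases q2 : κ1 a = x <;> by_cases q3 : Q b <;>
      by_cases q4 : κ2 b = y <;> by_cases q5 : R c <;> by_cases q6 : z ∈ ζ c <;>
      simp [q1, q2, q3, q4, q5, q6]
  simp only [e]
  simp only [← Finset.mul_sum, ← Finset.sum_mul]
  rw [sum_unique K (fun a => P a ∧ κ1 a = x) (fun a a' ha ha' => h1 (ha.2.trans ha'.2.symm)),
    sum_unique K (fun b => Q b ∧ κ2 b = y) (fun a a' ha ha' => h2 (ha.2.trans ha'.2.symm)),
    sum_unique K (fun c => R c ∧ z ∈ ζ c) (fun a a' ha ha' => hd _ _ _ ha.2 ha'.2)]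
  by_cases q1 : ∃ a, P a ∧ κ1 a = x <;> by_cases q2 : ∃ b, Q b ∧ κ2 b = y <;>
    by_cases q3 : ∃ c, R c ∧ z ∈ ζ c <;> simp only [q1, q2, q3] <;> simp

open Classical in
/-- the value at codes -/
lemma L_code {K : Type} [Field K] {α β γ B : Type} [Fintype α] [Fintype β] [Fintype γ]
    (κ1 : α → B → Bool) (κ2 : β → B → Bool) (h1 : Function.Injective κ1)
    (h2 : Function.Injective κ2)
    (ζ : γ → Set (B → Bool)) (hd : ∀ c c' z, z ∈ ζ c → z ∈ ζ c' → c = c')
    (g : α → β → γ → K) (a : α) (b : β) (c : γ) {z : B → Bool} (hz : z ∈ ζ c) :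
    L (fun a' b' c' => if κ1 a' = κ1 a ∧ κ2 b' = κ2 b ∧ z ∈ ζ c' then (1 : K) else 0) g =
      g a b c := by
  rw [LL_apply, Finset.sum_eq_single a, Finset.sum_eq_single b, Finset.sum_eq_single c]
  · rw [if_pos ⟨rfl, rfl, hz⟩, one_mul]
  · intro c' _ hc'
    rw [if_neg fun h => hc' (hd _ _ _ h.2.2 hz), zero_mul]
  · intro h
    exact absurd (Finset.mem_univ _) h
  · intro b' _ hb'
    refine Finset.sum_eq_zero fun c' _ => ?_
    rw [if_neg fun h => hb' (h2 h.2.1), zero_mul]
  · intro h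
    exact absurd (Finset.mem_univ _) h
  · intro a' _ ha'
    refine Finset.sum_eq_zero fun b' _ => Finset.sum_eq_zero fun c' _ => ?_
    rw [if_neg fun h => ha' (h1 h.1), zero_mul]
  · intro h
    exact absurd (Finset.mem_univ _) h

/-- the set of points of one factor -/
def imS {α B : Type} (κ : α → B → Bool) (P : α → Prop) : Set (B → Bool) :=
  {x | ∃ a, P a ∧ κ a = x}

lemma isCube_imS_or {α B : Type} (κ : α → B → Bool) (a b : α) (q : Prop)
    (h : IsCube {κ a, κ b}) : IsCube (imS κ (fun x => x = a ∨ (q ∧ x = b))) := by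
  by_cases hq : q
  · convert h using 1
    ext x
    simp only [imS, Set.mem_ofPred_eq, Set.mem_insert_iff, Set.mem_singleton_iff]
    constructor
    · rintro ⟨y, hy, rfl⟩
      rcases hy with rfl | ⟨_, rfl⟩
      · left; rfl
      · right; rfl
    · rintro (rfl | rfl)
      · exact ⟨a, Or.inl rfl, rfl⟩
      · exact ⟨b, Or.inr ⟨hq, rfl⟩, rfl⟩
  · convert isCube_singleton (κ a) using 1
    ext x
    simp only [imS, Set.mem_ofPred_eq, Set.mem_singleton_iff]
    constructor
    · rintro ⟨y, hy, rfl⟩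
      rcases hy with rfl | ⟨h, _⟩
      · rfl
      · exact absurd h hq
    · rintro rfl
      exact ⟨a, Or.inl rfl, rfl⟩

lemma isCube_imS_pair {α B : Type} (κ : α → B → Bool) (a b : α)
    (h : IsCube {κ a, κ b}) : IsCube (imS κ (fun x => x = a ∨ x = b)) := by
  have := isCube_imS_or κ a b True h
  simpa using this

lemma isCube_imS_single {α B : Type} (κ : α → B → Bool) (a : α) :
    IsCube (imS κ (fun x => x = a)) := by
  convert isCube_singleton (κ a) using 1
  ext x
  simp only [imS, Set.mem_ofPred_eq, Set.mem_singleton_iff]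
  constructor
  · rintro ⟨y, rfl, rfl⟩; rfl
  · rintro rfl; exact ⟨a, rfl, rfl⟩

end UBBitsKAux

open UBBitsKAux

theorem ub_bitsK (K : Type) [Field K] {V C St B : Type} [Fintype V] [Fintype C] [Fintype St]
    [Fintype B] [DecidableEq V] [DecidableEq C] (cof : St → C) (o : C → V) (τ : St → V)
    (act : C → Bool) (hτo : ∀ i, τ i ≠ o (cof i))
    (hinj : ∀ i j, cof i = cof j → τ i = τ j → i = j)
    (κ1 κ2 : V ⊕ St → B → Bool) (h1 : Function.Injective κ1) (h2 : Function.Injective κ2)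
    (ζ : C → Set (B → Bool)) (hd : ∀ c c' z, z ∈ ζ c → z ∈ ζ c' → c = c')
    (cov : C → Option V) (hcov0 : ∀ c, cov c = none ↔ act c = false)
    (hcov : ∀ c v, cov c = some v → v = o c ∨ ∃ i, cof i = c ∧ τ i = v)
    (S : Finset V) (hS : ∀ c v, cov c = some v → v ∈ S)
    (hζ : ∀ c, IsCube (ζ c))
    (hSc : ∀ v ∈ S, IsCube {z | ∃ c, cov c = some v ∧ z ∈ ζ c})
    (ha : ∀ i, IsCube {κ1 (Sum.inl (o (cof i))), κ1 (Sum.inl (τ i))})
    (hb : ∀ i, IsCube {κ2 (Sum.inl (o (cof i))), κ2 (Sum.inl (τ i))})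
    (hc : ∀ i, IsCube {κ1 (Sum.inr i), κ1 (Sum.inl (o (cof i)))})
    (hd' : ∀ i, IsCube {κ2 (Sum.inr i), κ2 (Sum.inl (τ i))}) :
    SuppAnd K (fun w : B ⊕ B ⊕ B → Bool =>
      decide (blockF cof o τ act κ1 κ2 ζ (xb w) (yb w) (zb w) = 1))
      (2 * Fintype.card St + S.card) := by
  classical
  have hz1 : ∀ i : St, IsCube {z | ∃ c, c = cof i ∧ z ∈ ζ c} := by
    intro i
    convert hζ (cof i) using 1
    ext z
    simp
  -- the terms
  have ht1 := fun i : St => term_of_cubesB
    (imS κ1 (fun a => a = Sum.inr i ∨ (cov (cof i) = some (τ i) ∧ a = Sum.inl (o (cof i)))))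
    (imS κ2 (fun b => b = Sum.inl (o (cof i)) ∨ b = Sum.inl (τ i)))
    {z | ∃ c, c = cof i ∧ z ∈ ζ c}
    (isCube_imS_or κ1 _ _ _ (hc i)) (isCube_imS_pair κ2 _ _ (hb i)) (hz1 i)
  have ht2 := fun i : St => term_of_cubesB
    (imS κ1 (fun a => a = Sum.inl (o (cof i)) ∨ a = Sum.inl (τ i)))
    (imS κ2 (fun b => b = Sum.inr i ∨ (cov (cof i) = some (τ i) ∧ b = Sum.inl (τ i))))
    {z | ∃ c, c = cof i ∧ z ∈ ζ c}
    (isCube_imS_pair κ1 _ _ (ha i)) (isCube_imS_or κ2 _ _ _ (hd' i)) (hz1 i)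
  have ht3 := fun v : {v : V // v ∈ S} => term_of_cubesB
    (imS κ1 (fun a => a = Sum.inl v.1)) (imS κ2 (fun b => b = Sum.inl v.1))
    {z | ∃ c, cov c = some v.1 ∧ z ∈ ζ c}
    (isCube_imS_single κ1 _) (isCube_imS_single κ2 _) (hSc v.1 v.2)
  choose c1 hc1 using ht1
  choose c2 hc2 using ht2
  choose c3 hc3 using ht3
  refine ⟨(Finset.univ.toList.map fun i => ((1 : K), c1 i)) ++
    (Finset.univ.toList.map fun i => ((-1 : K), c2 i)) ++
    (Finset.univ.toList.map fun v => ((1 : K), c3 v)), ?_, ?_⟩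
  · simp only [List.length_append, List.length_map, Finset.length_toList, Finset.card_univ,
      Fintype.card_coe]
    omega
  · intro w
    have hw : wsum ((Finset.univ.toList.map fun i => ((1 : K), c1 i)) ++
        (Finset.univ.toList.map fun i => ((-1 : K), c2 i)) ++
        (Finset.univ.toList.map fun v => ((1 : K), c3 v))) w =
        L (fun a b c => if κ1 a = xb w ∧ κ2 b = yb w ∧ zb w ∈ ζ c then (1 : K) else 0)
          (fun a b c => TK K cof o τ act a b c) := by
      unfold wsum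
      simp only [List.map_append, List.map_map, List.sum_append, Function.comp_def]
      rw [Finset.sum_map_toList, Finset.sum_map_toList, Finset.sum_map_toList]
      simp only [hc1, hc2, hc3]
      have eT : (fun a b c => TK K cof o τ act a b c) =
        (∑ i : St, fun (a b : V ⊕ St) (c : C) =>
          if (a = Sum.inr i ∨ (cov (cof i) = some (τ i) ∧ a = Sum.inl (o (cof i)))) ∧
            (b = Sum.inl (o (cof i)) ∨ b = Sum.inl (τ i)) ∧ c = cof i then (1 : K) else 0) +
        (∑ i : St, fun (a b : V ⊕ St) (c : C) => if (a = Sum.inl (o (cof i)) ∨ a = Sum.inl (τ i)) ∧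
            (b = Sum.inr i ∨ (cov (cof i) = some (τ i) ∧ b = Sum.inl (τ i))) ∧ c = cof i
            then (-1 : K) else 0) +
        (∑ v : {v : V // v ∈ S}, fun (a b : V ⊕ St) (c : C) =>
          if a = Sum.inl v.1 ∧ b = Sum.inl v.1 ∧ cov c = some v.1 then (1 : K) else 0) := by
        funext a b c
        rw [TK_id K cof o τ act hτo hinj cov hcov0 hcov S hS a b c]
        simp only [Pi.add_apply, Finset.sum_apply]
        congr 1
        rw [← Finset.sum_coe_sort]
      rw [eT, map_add, map_add, map_sum, map_sum, map_sum]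
      congr 1
      · congr 1
        · refine Finset.sum_congr rfl (fun i _ => ?_)
          convert (L_ind κ1 κ2 h1 h2 ζ hd
            (fun a => a = Sum.inr i ∨ (cov (cof i) = some (τ i) ∧ a = Sum.inl (o (cof i))))
            (fun b => b = Sum.inl (o (cof i)) ∨ b = Sum.inl (τ i)) (fun c => c = cof i) (1 : K)
            (xb w) (yb w) (zb w)).symm <;> exact Iff.rfl
        · refine Finset.sum_congr rfl (fun i _ => ?_)
          convert (L_ind κ1 κ2 h1 h2 ζ hd
            (fun a => a = Sum.inl (o (cof i)) ∨ a = Sum.inl (τ i))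
            (fun b => b = Sum.inr i ∨ (cov (cof i) = some (τ i) ∧ b = Sum.inl (τ i)))
            (fun c => c = cof i) (-1 : K) (xb w) (yb w) (zb w)).symm <;> exact Iff.rfl
      · refine Finset.sum_congr rfl (fun v _ => ?_)
        convert (L_ind κ1 κ2 h1 h2 ζ hd
            (fun a => a = Sum.inl v.1) (fun b => b = Sum.inl v.1)
            (fun c => cov c = some v.1) (1 : K) (xb w) (yb w) (zb w)).symm <;> exact Iff.rfl
    rw [hw, decide_eq_true_eq]
    by_cases hex : ∃ a b c, κ1 a = xb w ∧ κ2 b = yb w ∧ zb w ∈ ζ c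
    · obtain ⟨a, b, c, e1, e2, e3⟩ := hex
      have hL : L (fun a' b' c' => if κ1 a' = κ1 a ∧ κ2 b' = κ2 b ∧ zb w ∈ ζ c' then (1 : K)
          else 0) (fun a b c => TK K cof o τ act a b c) = TK K cof o τ act a b c := by
        convert L_code κ1 κ2 h1 h2 ζ hd (TK K cof o τ act) a b c e3
      rw [← e1, ← e2, blockF_code cof o τ act κ1 κ2 h1 h2 ζ hd a b c _ e3, hL]
      exact (TK_ne_zero K cof o τ act a b c).symm
    · rw [blockF_zero cof o τ act κ1 κ2 ζ _ _ _ hex]
      have h0 : L (fun a b c => if κ1 a = xb w ∧ κ2 b = yb w ∧ zb w ∈ ζ c then (1 : K) else 0)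
          (fun a b c => TK K cof o τ act a b c) = 0 := by
        rw [LL_apply]
        refine Finset.sum_eq_zero fun a _ => Finset.sum_eq_zero fun b _ =>
          Finset.sum_eq_zero fun c _ => ?_
        rw [if_neg fun h => hex ⟨a, b, c, h⟩, zero_mul]
      rw [h0]
      simp

end P65
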