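import Pool.Agent.Lib.P65K.LBTensor
import Pool.Agent.Lib.P65K.Blocks

/-!
Lower bound for the number of ANDs over `K` (compare `Pool.Agent.Lib.P65.LBBits`). Let `ts` be
the list of pairs (coefficient, term). By `eval_blocksK` each summand is a product
`(coeff * p (xb w)) * q (yb w) * r (zb w)`. Choose `z c ∈ ζ c` and put
`T' a b c := wsum ts (Sum.elim (κ1 a) (Sum.elim (κ2 b) (z c)))`, a sum of `ts.length ≤ s` products.
By hypothesis `T' a b c ≠ 0` iff `blockF (κ1 a) (κ2 b) (z c) = 1` iff `T a b c = 1`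
(`blockF_code`). Apply `lb_tensorK`.
-/

namespace P65

theorem lb_bitsK (K : Type) [Field K] {V C St B : Type} [Fintype V] [Fintype C] [Fintype St]
    [Fintype B] [DecidableEq V] [DecidableEq C] (cof : St → C) (o : C → V) (τ : St → V)
    (act : C → Bool) (hτo : ∀ i, τ i ≠ o (cof i))
    (hinj : ∀ i j, cof i = cof j → τ i = τ j → i = j)
    (κ1 κ2 : V ⊕ St → B → Bool) (h1 : Function.Injective κ1) (h2 : Function.Injective κ2)
    (ζ : C → Set (B → Bool)) (hne : ∀ c, (ζ c).Nonempty)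
    (hd : ∀ c c' z, z ∈ ζ c → z ∈ ζ c' → c = c') (s : ℕ)
    (h : SuppAnd K (fun w : B ⊕ B ⊕ B → Bool =>
      decide (blockF cof o τ act κ1 κ2 ζ (xb w) (yb w) (zb w) = 1)) s) :
    ∃ S : Finset V, S.card + 2 * Fintype.card St ≤ s ∧
      ∀ c, act c = true → (o c ∈ S ∨ ∃ i, cof i = c ∧ τ i ∈ S) := by
  obtain ⟨ts, hlen, hts⟩ := h
  choose z hz using hne
  choose p q r hpqr using fun t : Fin ts.length => eval_blocksK (K := K) (ts[t.1]).2
  have hT' : ∀ a b c, (wsum ts (Sum.elim (κ1 a) (Sum.elim (κ2 b) (z c))) ≠ 0 ↔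
      T cof o τ act a b c = 1) := by
    intro a b c
    rw [← hts (Sum.elim (κ1 a) (Sum.elim (κ2 b) (z c))), decide_eq_true_eq]
    have e2 : blockF cof o τ act κ1 κ2 ζ (xb (Sum.elim (κ1 a) (Sum.elim (κ2 b) (z c))))
        (yb (Sum.elim (κ1 a) (Sum.elim (κ2 b) (z c))))
        (zb (Sum.elim (κ1 a) (Sum.elim (κ2 b) (z c)))) = T cof o τ act a b c :=
      blockF_code cof o τ act κ1 κ2 h1 h2 ζ hd a b c (z c) (hz c)
    rw [e2]
  have hT : ∀ a b c, wsum ts (Sum.elim (κ1 a) (Sum.elim (κ2 b) (z c))) =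
      ∑ t : Fin ts.length, ((ts[t.1]).1 * p t (κ1 a)) * q t (κ2 b) * r t (z c) := by
    intro a b c
    unfold wsum
    rw [← Fin.sum_univ_fun_getElem]
    refine Finset.sum_congr rfl fun t _ => ?_
    have e3 := hpqr t (Sum.elim (κ1 a) (Sum.elim (κ2 b) (z c)))
    have e4 : (if (ts[t.1]).2.eval (Sum.elim (κ1 a) (Sum.elim (κ2 b) (z c))) = true then
        (ts[t.1]).1 else 0) = (ts[t.1]).1 *
        (if (ts[t.1]).2.eval (Sum.elim (κ1 a) (Sum.elim (κ2 b) (z c))) = true then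
          (1 : K) else 0) := by
      split_ifs
      · rw [mul_one]
      · rw [mul_zero]
    rw [e4, e3]
    have e5 : xb (Sum.elim (κ1 a) (Sum.elim (κ2 b) (z c))) = κ1 a := rfl
    have e6 : yb (Sum.elim (κ1 a) (Sum.elim (κ2 b) (z c))) = κ2 b := rfl
    have e7 : zb (Sum.elim (κ1 a) (Sum.elim (κ2 b) (z c))) = z c := rfl
    rw [e5, e6, e7]
    ring
  obtain ⟨S, hS, hcov⟩ := lb_tensorK cof o τ act hτo hinj
    (fun a b c => wsum ts (Sum.elim (κ1 a) (Sum.elim (κ2 b) (z c)))) hT'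
    (fun t a => (ts[t.1]).1 * p t (κ1 a)) (fun t b => q t (κ2 b)) (fun t c => r t (z c)) hT
  exact ⟨S, hS.trans hlen, hcov⟩

end P65
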