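import Pool.Agent.Lib.P65K.Defs
import Pool.Agent.Lib.P65.Subst
import Pool.Agent.Lib.P65.Pivot

/-!
Lower bound for the tensor rank over any field `K`, for every tensor `T'` with the zero pattern
of `T` (compare `Pool.Agent.Lib.P65.LBTensor`, the case `ZMod 2`).

Proof. Apply `subst_rows` (with `P = St`, `Y = (V ⊕ St) × C`, `X t (b, c) = s t b * w t c`): the
rows `T' (inr p)` are independent since `T' (inr p) (inl (τ q)) (cof q) ≠ 0` iff `p = q` (it is
`≠ 0` iff `cof p = cof q` and (`τ q = o (cof q)` or `τ q = τ p`)). We get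
`T1 v b c := T' (inl v) b c + ∑ p, l p v * T' (inr p) b c = ∑ t, r' t v * s (e t) b * w (e t) c`
with `R' + |St| ≤ R` terms. Apply `subst_rows` again to the columns: the array
`b ↦ (v, c) ↦ T1 v b c`, `Y = V × C`; its private columns are
`T1 v (inr q) c = T' (inl v) (inr q) c` (as `T' (inr p) (inr q) = 0`), independent for the same
reason (evaluate at `v = τ q, c = cof q`). We get
`T2 v b c := T1 v (inl b) c + ∑ q, l' q b * T' (inl v) (inr q) c = ∑ t, ...` (`v b : V`)
with `R'' + 2 |St| ≤ R` terms `r'' t v * s'' t b * w'' t c`.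
Apply `pivot` to the family `r''` and get `S`, `|S| ≤ R''`. Suppose that `act c` and that neither
`o c` nor any `τ i` (`cof i = c`) is in `S`. Define
`g (o c) = 1`, `g (τ q) = - T' (inl (o c)) (inr q) c / T' (inl (τ q)) (inr q) c` (`cof q = c`),
`g = 0` elsewhere, `ξ` from `pivot` (so `ξ = g` on `{o c} ∪ {τ q}` and off `S`), and
`η (o c) = 1`, `η (τ p) = - T' (inr p) (inl (o c)) c / T' (inr p) (inl (τ p)) c` (`cof p = c`),
`η = 0` elsewhere (well defined by `hinj`, `hτo`). Then `0 = ∑ v b, ξ v * η b * T2 v b c`. The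
part `T' (inl v) (inl b) c` gives `T' (inl (o c)) (inl (o c)) c ≠ 0`; the part
`∑ p, l p v * T' (inr p) (inl b) c` gives `∑ p, (∑ v, ξ v * l p v) * (∑ b, η b * T' (inr p) (inl b) c)
= 0`, and the part `∑ q, l' q b * T' (inl v) (inr q) c` gives `0` in the same way. Contradiction.
-/

namespace P65

namespace LBTensorKAux

theorem priv {K St : Type} [Field K] [Fintype St] (lam F : St → K) (q : St)
    (hF : ∀ p, F p ≠ 0 ↔ p = q) (h : ∑ p, lam p * F p = 0) : lam q = 0 := by
  classical
  rw [Finset.sum_eq_single q] at h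
  · exact (mul_eq_zero.1 h).resolve_right ((hF q).2 rfl)
  · intro p _ hp
    have h1 : F p = 0 := by
      by_contra h2
      exact hp ((hF p).1 h2)
    rw [h1, mul_zero]
  · intro hq
    exact absurd (Finset.mem_univ q) hq

theorem two {K V C St : Type} [Field K] [Fintype V] [DecidableEq V]
    (cof : St → C) (o : C → V) (τ : St → V) (hτo : ∀ i, τ i ≠ o (cof i)) (c : C)
    (A : V → St → K) (hA : ∀ v i, A v i ≠ 0 ↔ (cof i = c ∧ (v = o c ∨ v = τ i)))
    (F : V → K) (h0 : F (o c) = 1) (h1 : ∀ i, cof i = c → F (τ i) = - A (o c) i / A (τ i) i)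
    (q : St) : ∑ v, F v * A v q = 0 := by
  by_cases hq : cof q = c
  · have hne : o c ≠ τ q := by
      intro e
      apply hτo q
      rw [hq, e]
    have h2 : ∑ v, F v * A v q = F (o c) * A (o c) q + F (τ q) * A (τ q) q := by
      apply Finset.sum_eq_add (o c) (τ q) hne
      · rintro v - ⟨hv1, hv2⟩
        have h3 : A v q = 0 := by
          by_contra h4
          rcases ((hA v q).1 h4).2 with h5 | h5
          · exact hv1 h5
          · exact hv2 h5
        rw [h3, mul_zero]
      · intro h3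
        exact absurd (Finset.mem_univ _) h3
      · intro h3
        exact absurd (Finset.mem_univ _) h3
    have h3 : A (τ q) q ≠ 0 := (hA _ _).2 ⟨hq, Or.inr rfl⟩
    rw [h2, h0, h1 q hq, div_mul_cancel₀ _ h3]
    ring
  · apply Finset.sum_eq_zero
    intro v _
    have h3 : A v q = 0 := by
      by_contra h4
      exact hq ((hA v q).1 h4).1
    rw [h3, mul_zero]

/-- the coefficients -/
theorem exists_g {K V C St : Type} [Field K]
    (cof : St → C) (o : C → V) (τ : St → V) (hτo : ∀ i, τ i ≠ o (cof i))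
    (hinj : ∀ i j, cof i = cof j → τ i = τ j → i = j) (c : C)
    (A : V → St → K) : ∃ g : V → K, g (o c) = 1 ∧
      ∀ i, cof i = c → g (τ i) = - A (o c) i / A (τ i) i := by
  classical
  refine ⟨fun v => if v = o c then 1 else if h : ∃ q, cof q = c ∧ τ q = v then
    - A (o c) h.choose / A v h.choose else 0, if_pos rfl, fun i hi => ?_⟩
  have hne : τ i ≠ o c := by
    rw [← hi]
    exact hτo i
  have hex : ∃ q, cof q = c ∧ τ q = τ i := ⟨i, hi, rfl⟩
  have hch : hex.choose = i :=
    hinj _ _ (hex.choose_spec.1.trans hi.symm) hex.choose_spec.2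
  simp only
  rw [if_neg hne, dif_pos hex, hch]

end LBTensorKAux

open LBTensorKAux

theorem lb_tensorK {K V C St : Type} [Field K] [Fintype V] [Fintype C] [Fintype St]
    [DecidableEq V] [DecidableEq C] (cof : St → C) (o : C → V) (τ : St → V) (act : C → Bool)
    (hτo : ∀ i, τ i ≠ o (cof i)) (hinj : ∀ i j, cof i = cof j → τ i = τ j → i = j)
    (T' : (V ⊕ St) → (V ⊕ St) → C → K)
    (hT' : ∀ a b c, (T' a b c ≠ 0 ↔ T cof o τ act a b c = 1))
    {R : ℕ} (r s : Fin R → (V ⊕ St) → K) (w : Fin R → C → K)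
    (hT : ∀ a b c, T' a b c = ∑ t, r t a * s t b * w t c) :
    ∃ S : Finset V, S.card + 2 * Fintype.card St ≤ R ∧
      ∀ c, act c = true → (o c ∈ S ∨ ∃ i, cof i = c ∧ τ i ∈ S) := by
  classical
  have hz : ∀ a b c, ¬ T cof o τ act a b c = 1 → T' a b c = 0 := by
    intro a b c h
    by_contra h1
    exact h ((hT' a b c).1 h1)
  have hrr : ∀ p q c, T' (Sum.inr p) (Sum.inr q) c = 0 := by
    intro p q c
    apply hz
    simp [T]
  have hll : ∀ v b c, T' (Sum.inl v) (Sum.inl b) c ≠ 0 ↔ (v = o c ∧ b = o c ∧ act c = true) := by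
    intro v b c
    rw [hT']
    simp [T]
  have hrl : ∀ v i c, T' (Sum.inr i) (Sum.inl v) c ≠ 0 ↔ (cof i = c ∧ (v = o c ∨ v = τ i)) := by
    intro v i c
    rw [hT']
    simp [T]
    tauto
  have hlr : ∀ v i c, T' (Sum.inl v) (Sum.inr i) c ≠ 0 ↔ (cof i = c ∧ (v = o c ∨ v = τ i)) := by
    intro v i c
    rw [hT']
    simp [T]
    tauto
  have hpq : ∀ p q, (cof p = cof q ∧ (τ q = o (cof q) ∨ τ q = τ p)) ↔ p = q := by
    intro p q
    constructor
    · rintro ⟨h3, h4 | h4⟩
      · exact absurd h4 (hτo q)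
      · exact hinj p q h3 h4.symm
    · rintro rfl
      exact ⟨rfl, Or.inr rfl⟩
  obtain ⟨R', e, l, r', hR1, h1⟩ := subst_rows (K := K) (Y := (V ⊕ St) × C) r
    (fun t y => s t y.1 * w t y.2) (fun a y => T' a y.1 y.2)
    (fun a y => by
      rw [hT]
      exact Finset.sum_congr rfl (fun t _ => by ring))
    (fun lam hl => by
      funext q
      have h := hl (Sum.inl (τ q), cof q)
      exact priv lam (fun p => T' (Sum.inr p) (Sum.inl (τ q)) (cof q)) q
        (fun p => (hrl _ _ _).trans (hpq p q)) h)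
  -- columns
  obtain ⟨R'', e', l', s', hR2, h2⟩ := subst_rows (K := K) (Y := V × C)
    (fun t b => s (e t) b) (fun t y => r' t y.1 * w (e t) y.2)
    (fun b y => T' (Sum.inl y.1) b y.2 + ∑ p, l p y.1 * T' (Sum.inr p) b y.2)
    (fun b y => by
      have h := h1 y.1 (b, y.2)
      simp only at h
      rw [h]
      exact Finset.sum_congr rfl (fun t _ => by ring))
    (fun lam hl => by
      funext q
      have h := hl (τ q, cof q)
      simp only [hrr, mul_zero, Finset.sum_const_zero, add_zero] at h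
      exact priv lam (fun p => T' (Sum.inl (τ q)) (Sum.inr p) (cof q)) q
        (fun p => (hlr _ _ _).trans (hpq p q)) h)
  obtain ⟨S, hS, hp⟩ := pivot (fun t v => r' (e' t) v)
  refine ⟨S, by omega, fun c hc => ?_⟩
  by_contra hcon
  push Not at hcon
  obtain ⟨hoS, hτS⟩ := hcon
  obtain ⟨g, hg0, hg1⟩ := exists_g cof o τ hτo hinj c (fun v i => T' (Sum.inl v) (Sum.inr i) c)
  obtain ⟨η, hη0, hη1⟩ := exists_g cof o τ hτo hinj c (fun v i => T' (Sum.inr i) (Sum.inl v) c)
  obtain ⟨ξ, hξ, hξ0⟩ := hp g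
  have hξo : ξ (o c) = 1 := by
    rw [hξ _ hoS, hg0]
  have hξτ : ∀ i, cof i = c → ξ (τ i) =
      - T' (Sum.inl (o c)) (Sum.inr i) c / T' (Sum.inl (τ i)) (Sum.inr i) c := by
    intro i hi
    rw [hξ _ (hτS i hi), hg1 i hi]
  have hT2 : ∀ v b, (∑ t, s' t b * (r' (e' t) v * w (e (e' t)) c))
      = (T' (Sum.inl v) (Sum.inl b) c
        + ∑ p, l p v * T' (Sum.inr p) (Sum.inl b) c)
        + ∑ q, l' q b * T' (Sum.inl v) (Sum.inr q) c := by
    intro v b
    have h := h2 b (v, c)
    simp only [hrr, mul_zero, Finset.sum_const_zero, add_zero] at h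
    exact h.symm
  have hzero : ∑ v, ∑ b, ξ v * η b * (∑ t, s' t b * (r' (e' t) v * w (e (e' t)) c)) = 0 := by
    rw [Finset.sum_comm]
    apply Finset.sum_eq_zero
    intro b _
    have h3 : ∀ v, ξ v * η b * (∑ t, s' t b * (r' (e' t) v * w (e (e' t)) c))
        = ∑ t, (η b * s' t b * w (e (e' t)) c) * (ξ v * r' (e' t) v) := by
      intro v
      rw [Finset.mul_sum]
      exact Finset.sum_congr rfl (fun t _ => by ring)
    rw [Finset.sum_congr rfl (fun v _ => h3 v), Finset.sum_comm]
    apply Finset.sum_eq_zero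
    intro t _
    rw [← Finset.mul_sum, hξ0 t, mul_zero]
  have hone : ∑ v, ∑ b, ξ v * η b * (∑ t, s' t b * (r' (e' t) v * w (e (e' t)) c))
      = T' (Sum.inl (o c)) (Sum.inl (o c)) c := by
    have h3 : ∀ v b, ξ v * η b * (∑ t, s' t b * (r' (e' t) v * w (e (e' t)) c))
        = ξ v * η b * T' (Sum.inl v) (Sum.inl b) c
        + (∑ p, (ξ v * l p v) * (η b * T' (Sum.inr p) (Sum.inl b) c))
        + ∑ q, (η b * l' q b) * (ξ v * T' (Sum.inl v) (Sum.inr q) c) := by
      intro v b
      rw [hT2 v b, mul_add, mul_add, Finset.mul_sum, Finset.mul_sum]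
      congr 1
      · congr 1
        exact Finset.sum_congr rfl (fun t _ => by ring)
      · exact Finset.sum_congr rfl (fun t _ => by ring)
    have hA : ∑ v, ∑ b, ξ v * η b * T' (Sum.inl v) (Sum.inl b) c
        = T' (Sum.inl (o c)) (Sum.inl (o c)) c := by
      have h4 : ∀ v b, ¬ (v = o c ∧ b = o c) → T' (Sum.inl v) (Sum.inl b) c = 0 := by
        intro v b hvb
        by_contra h5
        have h6 := (hll v b c).1 h5
        exact hvb ⟨h6.1, h6.2.1⟩
      rw [Finset.sum_eq_single (o c), Finset.sum_eq_single (o c)]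
      · rw [hξo, hη0, mul_one, one_mul]
      · intro b _ hb
        rw [h4 _ _ (fun h => hb h.2), mul_zero]
      · intro h
        exact absurd (Finset.mem_univ _) h
      · intro v _ hv
        apply Finset.sum_eq_zero
        intro b _
        rw [h4 _ _ (fun h => hv h.1), mul_zero]
      · intro h
        exact absurd (Finset.mem_univ _) h
    have hB : ∑ v, ∑ b, (∑ p, (ξ v * l p v) * (η b * T' (Sum.inr p) (Sum.inl b) c)) = 0 := by
      apply Finset.sum_eq_zero
      intro v _
      rw [Finset.sum_comm]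
      apply Finset.sum_eq_zero
      intro p _
      rw [← Finset.mul_sum, two cof o τ hτo c (fun v i => T' (Sum.inr i) (Sum.inl v) c)
        (fun v i => hrl v i c) η hη0 hη1 p, mul_zero]
    have hC : ∑ v, ∑ b, (∑ q, (η b * l' q b) * (ξ v * T' (Sum.inl v) (Sum.inr q) c)) = 0 := by
      rw [Finset.sum_comm]
      apply Finset.sum_eq_zero
      intro b _
      rw [Finset.sum_comm]
      apply Finset.sum_eq_zero
      intro q _
      rw [← Finset.mul_sum, two cof o τ hτo c (fun v i => T' (Sum.inl v) (Sum.inr i) c)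
        (fun v i => hlr v i c) ξ hξo hξτ q, mul_zero]
    calc ∑ v, ∑ b, ξ v * η b * (∑ t, s' t b * (r' (e' t) v * w (e (e' t)) c))
        = ∑ v, ∑ b, (ξ v * η b * T' (Sum.inl v) (Sum.inl b) c
        + (∑ p, (ξ v * l p v) * (η b * T' (Sum.inr p) (Sum.inl b) c))
        + ∑ q, (η b * l' q b) * (ξ v * T' (Sum.inl v) (Sum.inr q) c)) :=
          Finset.sum_congr rfl (fun v _ => Finset.sum_congr rfl (fun b _ => h3 v b))
      _ = T' (Sum.inl (o c)) (Sum.inl (o c)) c := by
          simp only [Finset.sum_add_distrib]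
          rw [hA, hB, hC]
          ring
  rw [hzero] at hone
  exact (hll (o c) (o c) c).2 ⟨rfl, rfl, hc⟩ hone.symm

end P65
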