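import Pool.Agent.Lib.P65K.Defs

/-!
The identity behind the upper bound over `K` (compare `Pool.Agent.Lib.P65.UBId`; now with signs:
the terms of the private columns have the coefficient `-1`). The terms with
`cov (cof i) = some (τ i)` contribute in addition `E_oo + E_oτ - E_oτ - E_ττ = E_oo - E_ττ` in the
slice `cof i`.
-/

namespace P65

namespace UBIdKAux

theorem sum_single {K ι : Type} [Field K] (s : Finset ι) (Q : ι → Prop) [DecidablePred Q] (i₀ : ι)
    (x : K) (h0 : i₀ ∈ s) (h : ∀ i ∈ s, Q i → i = i₀) :
    ∑ i ∈ s, (if Q i then x else 0) = if Q i₀ then x else 0 :=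
  Finset.sum_eq_single_of_mem i₀ h0 (fun j hj hne => if_neg (fun hQ => hne (h j hj hQ)))

theorem sum_none {K ι : Type} [Field K] (s : Finset ι) (Q : ι → Prop) [DecidablePred Q] (x : K)
    (h : ∀ i ∈ s, ¬ Q i) :
    ∑ i ∈ s, (if Q i then x else 0) = 0 :=
  Finset.sum_eq_zero (fun j hj => if_neg (h j hj))

end UBIdKAux

open Classical in
theorem TK_id (K : Type) [Field K] {V C St : Type} [Fintype V] [Fintype C] [Fintype St] [DecidableEq V]
    [DecidableEq C] (cof : St → C) (o : C → V) (τ : St → V) (act : C → Bool)
    (hτo : ∀ i, τ i ≠ o (cof i)) (hinj : ∀ i j, cof i = cof j → τ i = τ j → i = j)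
    (cov : C → Option V) (hcov0 : ∀ c, cov c = none ↔ act c = false)
    (hcov : ∀ c v, cov c = some v → v = o c ∨ ∃ i, cof i = c ∧ τ i = v)
    (S : Finset V) (hS : ∀ c v, cov c = some v → v ∈ S) (a b : V ⊕ St) (c : C) :
    TK K cof o τ act a b c =
      (∑ i : St, if (a = Sum.inr i ∨ (cov (cof i) = some (τ i) ∧ a = Sum.inl (o (cof i)))) ∧
          (b = Sum.inl (o (cof i)) ∨ b = Sum.inl (τ i)) ∧ c = cof i then (1 : K) else 0) +
      (∑ i : St, if (a = Sum.inl (o (cof i)) ∨ a = Sum.inl (τ i)) ∧
          (b = Sum.inr i ∨ (cov (cof i) = some (τ i) ∧ b = Sum.inl (τ i))) ∧ c = cof i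
          then (-1 : K) else 0) +
      (∑ v ∈ S, if a = Sum.inl v ∧ b = Sum.inl v ∧ cov c = some v then (1 : K) else 0) := by
  rcases a with v | p <;> rcases b with v' | q
  · -- both tiles
    rcases hc : cov c with _ | w
    · have hact := (hcov0 c).mp hc
      have hT : TK K cof o τ act (Sum.inl v) (Sum.inl v') c = 0 := by
        change (if v = o c ∧ v' = o c ∧ act c = true then (1 : K) else 0) = 0
        rw [if_neg]
        rintro ⟨_, _, h⟩
        rw [hact] at h
        exact absurd h (by decide)
      rw [hT, UBIdKAux.sum_none, UBIdKAux.sum_none, UBIdKAux.sum_none]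
      · simp
      · rintro u _ ⟨_, _, h⟩
        exact absurd h (by simp)
      · rintro i _ ⟨_, h1 | ⟨h1, _⟩, h2⟩
        · exact absurd h1 (by simp)
        · rw [← h2, hc] at h1
          exact absurd h1 (by simp)
      · rintro i _ ⟨h1 | ⟨h1, _⟩, _, h2⟩
        · exact absurd h1 (by simp)
        · rw [← h2, hc] at h1
          exact absurd h1 (by simp)
    · have hact : act c = true := by
        rcases h : act c with _ | _
        · have := (hcov0 c).mpr h
          rw [hc] at this
          exact absurd this (by simp)
        · rfl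
      have hwS := hS c w hc
      have h3 : (∑ u ∈ S, if (Sum.inl v : V ⊕ St) = Sum.inl u ∧ (Sum.inl v' : V ⊕ St) = Sum.inl u ∧
          some w = some u then (1 : K) else 0) = if v = w ∧ v' = w then 1 else 0 := by
        rw [UBIdKAux.sum_single S _ w _ hwS]
        · simp
        · intro u _ h
          exact (Option.some.inj h.2.2).symm
      have hT : TK K cof o τ act (Sum.inl v) (Sum.inl v') c = if v = o c ∧ v' = o c then 1 else 0 := by
        change (if v = o c ∧ v' = o c ∧ act c = true then (1 : K) else 0) = _
        simp [hact]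
      rw [h3, hT]
      by_cases hw : w = o c
      · rw [UBIdKAux.sum_none, UBIdKAux.sum_none, hw]
        · simp
        · rintro i _ ⟨_, h1 | ⟨h1, _⟩, h2⟩
          · exact absurd h1 (by simp)
          · rw [← h2, hc, hw] at h1
            have h4 := Option.some.inj h1
            rw [h2] at h4
            exact hτo i h4.symm
        · rintro i _ ⟨h1 | ⟨h1, _⟩, _, h2⟩
          · exact absurd h1 (by simp)
          · rw [← h2, hc, hw] at h1
            have h4 := Option.some.inj h1
            rw [h2] at h4
            exact hτo i h4.symm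
      · obtain ⟨i₀, hi1, hi2⟩ : ∃ i, cof i = c ∧ τ i = w := by
          rcases hcov c w hc with h | h
          · exact absurd h hw
          · exact h
        have huniq : ∀ i, cov (cof i) = some (τ i) → c = cof i → i = i₀ := by
          intro i h1 h2
          rw [← h2, hc] at h1
          exact hinj i i₀ (by rw [hi1, h2]) (by rw [hi2]; exact (Option.some.inj h1).symm)
        rw [UBIdKAux.sum_single Finset.univ _ i₀ _ (Finset.mem_univ _), UBIdKAux.sum_single Finset.univ _ i₀ _
          (Finset.mem_univ _)]
        · rw [hi1, hi2, hc]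
          simp only [reduceCtorEq, false_or, Sum.inl.injEq, true_and, and_true]
          by_cases a1 : v = o c
          · have a2 : v ≠ w := fun h => hw (by rw [← h, a1])
            by_cases a3 : v' = o c
            · have a4 : v' ≠ w := fun h => hw (by rw [← h, a3])
              simp [a1, a3, Ne.symm hw]
            · by_cases a4 : v' = w
              · subst a1
                subst a4
                simp [hw, Ne.symm hw]
              · simp [a1, a3, a4]
          · by_cases a2 : v = w
            · by_cases a4 : v' = w
              · simp [a1, a2, a4, hw]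
              · simp [a1, a4]
            · simp [a1, a2]
        · rintro i _ ⟨_, h1 | ⟨h1, _⟩, h2⟩
          · exact absurd h1 (by simp)
          · exact huniq i h1 h2
        · rintro i _ ⟨h1 | ⟨h1, _⟩, _, h2⟩
          · exact absurd h1 (by simp)
          · exact huniq i h1 h2
  · -- column private
    have hT : TK K cof o τ act (Sum.inl v) (Sum.inr q) c =
        if cof q = c ∧ (v = o c ∨ v = τ q) then -1 else 0 := rfl
    rw [hT, UBIdKAux.sum_none, UBIdKAux.sum_single Finset.univ _ q _ (Finset.mem_univ _),
      UBIdKAux.sum_none, zero_add, add_zero]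
    · congr 1
      apply propext
      constructor
      · rintro ⟨rfl, h⟩
        refine ⟨?_, Or.inl rfl, rfl⟩
        rcases h with h | h
        · exact Or.inl (by rw [h])
        · exact Or.inr (by rw [h])
      · rintro ⟨h, _, rfl⟩
        refine ⟨rfl, ?_⟩
        rcases h with h | h
        · exact Or.inl (Sum.inl.inj h)
        · exact Or.inr (Sum.inl.inj h)
    · rintro u _ ⟨_, h, _⟩
      exact absurd h (by simp)
    · rintro i _ ⟨_, h | ⟨_, h⟩, _⟩
      · exact (Sum.inr.inj h).symm
      · exact absurd h (by simp)
    · rintro i _ ⟨_, h | h, _⟩ <;> exact absurd h (by simp)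
  · -- row private
    have hT : TK K cof o τ act (Sum.inr p) (Sum.inl v') c =
        if cof p = c ∧ (v' = o c ∨ v' = τ p) then 1 else 0 := rfl
    rw [hT, UBIdKAux.sum_single Finset.univ _ p _ (Finset.mem_univ _), UBIdKAux.sum_none,
      UBIdKAux.sum_none, add_zero, add_zero]
    · congr 1
      apply propext
      constructor
      · rintro ⟨rfl, h⟩
        refine ⟨Or.inl rfl, ?_, rfl⟩
        rcases h with h | h
        · exact Or.inl (by rw [h])
        · exact Or.inr (by rw [h])
      · rintro ⟨_, h, rfl⟩
        refine ⟨rfl, ?_⟩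
        rcases h with h | h
        · exact Or.inl (Sum.inl.inj h)
        · exact Or.inr (Sum.inl.inj h)
    · rintro u _ ⟨h, _⟩
      exact absurd h (by simp)
    · rintro i _ ⟨h | h, _⟩ <;> exact absurd h (by simp)
    · rintro i _ ⟨h | ⟨_, h⟩, _⟩
      · exact (Sum.inr.inj h).symm
      · exact absurd h (by simp)
  · have hT : TK K cof o τ act (Sum.inr p) (Sum.inr q) c = 0 := rfl
    rw [hT, UBIdKAux.sum_none, UBIdKAux.sum_none, UBIdKAux.sum_none]
    · simp
    · rintro u _ ⟨h, _⟩
      exact absurd h (by simp)
    · rintro i _ ⟨h | h, _⟩ <;> exact absurd h (by simp)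
    · rintro i _ ⟨_, h | h, _⟩ <;> exact absurd h (by simp)

end P65
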